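import Mathlib

/-!
# The LMO invariant separates the homology spheres obtained by surgery on the Borromean rings

The integral homology spheres obtained by surgery on the Borromean rings are the manifolds
`M(a, b, c)` obtained by surgery with the coefficients `-1 / a`, `-1 / b`, `-1 / c`, for integers
`a`, `b`, `c` (the linking numbers vanish).  They contain all manifolds obtained by surgery with
coefficient `1 / n` on the twist knots and double twist knots (all two-bridge knots of genus one),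
and those obtained from the Whitehead link; infinitely many of them are hyperbolic.  `M(a, b, c)`
does not depend on the order of `a`, `b`, `c`, the mirror image of `M(a, b, c)` is
`M(-a, -b, -c)`, and `M(a, b, c)` is the 3-sphere if one of the three coefficients vanishes.

By a theorem of Ohtsuki the part of degree at most `d` of the LMO invariant of an integral homology
sphere determines the coefficients of degree at most `d` of its Ohtsuki series (the perturbative
`SO(3)` invariant) `τ(h)`, `q = exp h`.  The Ohtsuki series of `M(a, b, c)` is the expansion at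
`q = 1` of Habiro's invariant.  By Habiro's formula for the coloured Jones polynomial of the
Borromean rings and the formula for the surgery element in terms of Habiro's basis (Habiro,
Masbaum)

  `τ = ∑_n (-1)^n q^{-n (3 n + 7) / 2} u_n(a) u_n(b) u_n(c) (q^{n+1}; q)_{n+1} / (1 - q)`,

  `u_n(p) = (-1)^n q^{n (n + 3) / 2} (q; q)_n
     ∑_{k ≤ n} (-1)^k q^{k (k + 1) p + k (k - 1) / 2} (1 - q^{2 k + 1}) /
       ((q; q)_{n + k + 1} (q; q)_{n - k})`.

Here `u_n(p)` is a Laurent polynomial in `q` (`u_n(0) = 0` for `n > 0`, `u_n(-1) = 1`,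
`u_n(1) = (-1)^n q^{n (n + 3) / 2}`), and the `n`-th term of the sum is divisible by `h^n`.  For
`a = b = c = 1` this is the series `∑ q^n (q^{n+1}; q)_{n+1} / (1 - q)` of the Poincare sphere, which
starts with `1 - 6 (q - 1) + 45 (q - 1)^2 - 464 (q - 1)^3`; `M(1, -1, -1)`, `M(1, 1, 2)` and
`M(-1, -1, 2)` are the Brieskorn spheres `Σ(2, 3, 7)`, `Σ(2, 3, 11)` and `Σ(2, 3, 13)`, and the
coefficients below agree with those of the Gaussian integral formula for Seifert manifolds.  (With
the opposite convention for the orientations `h` has to be replaced by `-h`.)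
-/

set_option autoImplicit false
set_option linter.unusedSimpArgs false

open Finset

namespace Pool.Agent.Results.MP_27a3bb_gt.BorromeanSurgeries

/-- `q ^ m = exp (m h)`, a power series in `h`, as an element of the field of Laurent series. -/
noncomputable def q (m : ℤ) : LaurentSeries ℚ :=
  ((PowerSeries.rescale (m : ℚ) (PowerSeries.exp ℚ) : PowerSeries ℚ) : LaurentSeries ℚ)

/-- `(q; q)_n = (1 - q) (1 - q ^ 2) ⋯ (1 - q ^ n)`. -/
noncomputable def poch (n : ℕ) : LaurentSeries ℚ := ∏ j ∈ range n, (1 - q (j + 1))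

/-- The coefficients of the surgery element,
`u_n(p) = (-1)^n q^{n (n + 3) / 2} (q; q)_n
  ∑_{k ≤ n} (-1)^k q^{k (k + 1) p + k (k - 1) / 2} (1 - q^{2 k + 1}) / ((q; q)_{n+k+1} (q; q)_{n-k})`.
-/
noncomputable def u (n : ℕ) (p : ℤ) : LaurentSeries ℚ :=
  (-1) ^ n * q (n * (n + 3) / 2) * poch n *
    ∑ k ∈ range (n + 1), (-1) ^ k * q (k * (k + 1) * p + k * (k - 1) / 2) * (1 - q (2 * k + 1)) /
      (poch (n + k + 1) * poch (n - k))

/-- The `n`-th term of the Ohtsuki series of `M(a, b, c)`,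
`(-1)^n q^{-n (3 n + 7) / 2} u_n(a) u_n(b) u_n(c) (q^{n+1}; q)_{n+1} / (1 - q)`. -/
noncomputable def term (a b c : ℤ) (n : ℕ) : LaurentSeries ℚ :=
  (-1) ^ n * q (-(n * (3 * n + 7) / 2)) * (u n a * u n b * u n c) *
    (∏ j ∈ range (n + 1), (1 - q (n + 1 + j))) / (1 - q 1)

/-- The coefficient of `h ^ d` of the Ohtsuki series of `M(a, b, c)`; the `n`-th term of the sum is
divisible by `h ^ n`, and so the terms with `n > d` do not contribute. -/
noncomputable def ohtsuki (a b c : ℤ) (d : ℕ) : ℚ :=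
  (∑ n ∈ range (d + 1), term a b c n).coeff d

/-! ### power series -/

/-- `exp (m h)` -/
noncomputable def e (m : ℤ) : PowerSeries ℚ := PowerSeries.rescale (m : ℚ) (PowerSeries.exp ℚ)

/-- `(exp (m h) - 1) / h` -/
noncomputable def E (m : ℤ) : PowerSeries ℚ :=
  PowerSeries.mk fun k => (m : ℚ) ^ (k + 1) / ((k + 1).factorial : ℚ)

/-- coefficients -/
noncomputable abbrev co (k : ℕ) (f : PowerSeries ℚ) : ℚ := PowerSeries.coeff k f

lemma q_eq (m : ℤ) : q m = (e m : LaurentSeries ℚ) := rfl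

lemma e_coeff (m : ℤ) (k : ℕ) : PowerSeries.coeff k (e m) = (m : ℚ) ^ k / (k.factorial : ℚ) := by
  rw [e, PowerSeries.coeff_rescale, PowerSeries.coeff_exp]
  simp [div_eq_mul_inv]

lemma E_coeff (m : ℤ) (k : ℕ) :
    PowerSeries.coeff k (E m) = (m : ℚ) ^ (k + 1) / ((k + 1).factorial : ℚ) := by
  rw [E, PowerSeries.coeff_mk]

lemma e0 (m : ℤ) : co 0 (e m) = 1 := by rw [co, e_coeff]; simp
lemma e1 (m : ℤ) : co 1 (e m) = m := by rw [co, e_coeff]; simp
lemma e2 (m : ℤ) : co 2 (e m) = (m : ℚ) ^ 2 / 2 := by rw [co, e_coeff]; simp [Nat.factorial]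
lemma e3 (m : ℤ) : co 3 (e m) = (m : ℚ) ^ 3 / 6 := by rw [co, e_coeff]; norm_num [Nat.factorial]
lemma E0 (m : ℤ) : co 0 (E m) = m := by rw [co, E_coeff]; simp
lemma E1 (m : ℤ) : co 1 (E m) = (m : ℚ) ^ 2 / 2 := by rw [co, E_coeff]; simp [Nat.factorial]
lemma E2 (m : ℤ) : co 2 (E m) = (m : ℚ) ^ 3 / 6 := by
  rw [co, E_coeff]; norm_num [Nat.factorial]
lemma E3 (m : ℤ) : co 3 (E m) = (m : ℚ) ^ 4 / 24 := by
  rw [co, E_coeff]; norm_num [Nat.factorial]

lemma m0 (f g : PowerSeries ℚ) : co 0 (f * g) = co 0 f * co 0 g := by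
  simp [co]
lemma m1 (f g : PowerSeries ℚ) : co 1 (f * g) = co 0 f * co 1 g + co 1 f * co 0 g := by
  rw [co, PowerSeries.coeff_mul]
  simp [Finset.Nat.antidiagonal_succ, co]
lemma m2 (f g : PowerSeries ℚ) :
    co 2 (f * g) = co 0 f * co 2 g + co 1 f * co 1 g + co 2 f * co 0 g := by
  rw [co, PowerSeries.coeff_mul]
  simp [Finset.Nat.antidiagonal_succ, co]
  ring
lemma m3 (f g : PowerSeries ℚ) :
    co 3 (f * g) = co 0 f * co 3 g + co 1 f * co 2 g + co 2 f * co 1 g + co 3 f * co 0 g := by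
  rw [co, PowerSeries.coeff_mul]
  simp [Finset.Nat.antidiagonal_succ, co]
  ring
lemma s (k : ℕ) (f g : PowerSeries ℚ) : co k (f + g) = co k f + co k g := map_add _ _ _
lemma t (k : ℕ) (f g : PowerSeries ℚ) : co k (f - g) = co k f - co k g := map_sub _ _ _
lemma n (k : ℕ) (f : PowerSeries ℚ) : co k (-f) = -co k f := map_neg _ _

lemma e_add (m n : ℤ) : e (m + n) = e m * e n := by
  rw [e, e, e]
  push_cast
  rw [PowerSeries.exp_mul_exp_eq_exp_add]

lemma one_sub_e (m : ℤ) : 1 - e m = -(PowerSeries.X * E m) := by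
  ext k
  rcases k with _ | k
  · have := e0 m
    simp only [co] at this
    rw [map_sub, this]
    simp
  · rw [map_sub, map_neg, PowerSeries.coeff_succ_X_mul, E_coeff, e_coeff]
    simp [PowerSeries.coeff_one]

lemma one_sub_q (m : ℤ) :
    1 - q m = -(((PowerSeries.X : PowerSeries ℚ) * E m : PowerSeries ℚ) : LaurentSeries ℚ) := by
  rw [q_eq, ← PowerSeries.coe_one, ← PowerSeries.coe_sub, one_sub_e, PowerSeries.coe_neg]

/-- a series with prescribed product -/
lemma E_unit {m : ℤ} (hm : m ≠ 0) : E m * (E m)⁻¹ = 1 := by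
  apply PowerSeries.mul_inv_cancel
  have := E0 m
  simp only [co, PowerSeries.coeff_zero_eq_constantCoeff] at this
  rw [this]
  exact_mod_cast hm

lemma one_sub_q_ne {m : ℤ} (hm : m ≠ 0) : 1 - q m ≠ 0 := by
  rw [one_sub_q]
  intro h
  have h1 : ((PowerSeries.X : PowerSeries ℚ) * E m) = 0 := by
    have h2 := neg_eq_zero.1 h
    rw [← PowerSeries.coe_zero] at h2
    exact HahnSeries.ofPowerSeries_injective h2
  rcases mul_eq_zero.1 h1 with h3 | h3
  · exact PowerSeries.X_ne_zero h3
  · have := E_unit hm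
    rw [h3, zero_mul] at this
    exact zero_ne_one this

lemma q0 : q 0 = 1 := by
  rw [q_eq, ← PowerSeries.coe_one]
  congr 1
  have := one_sub_e 0
  have h0 : E 0 = 0 := by
    ext k
    rw [E_coeff]
    simp
  rw [h0, mul_zero, neg_zero, sub_eq_zero] at this
  exact this.symm

lemma u0 (p : ℤ) : u 0 p = 1 := by
  have h := one_sub_q_ne (m := 1) one_ne_zero
  simp [u, poch, q0]
  field_simp
  exact h

lemma u1 (p : ℤ) : u 1 p * (1 - q 2) = - q 2 * (1 - q (2 * p)) := by
  have h1 := one_sub_q_ne (m := 1) (by norm_num)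
  have h2 := one_sub_q_ne (m := 2) (by norm_num)
  have h3 := one_sub_q_ne (m := 3) (by norm_num)
  simp [u, poch, Finset.sum_range_succ, Finset.prod_range_succ, q0]
  field_simp
  ring

lemma u2 (p : ℤ) : u 2 p * ((1 - q 1) * (1 - q 2) * (1 - q 3) * (1 - q 4)) =
    q 5 * ((1 - q 1) * (1 - q 4) - q (2 * p) * (1 - q 2) * (1 - q 3) +
      q (6 * p + 1) * (1 - q 1) * (1 - q 2)) := by
  have h1 := one_sub_q_ne (m := 1) (by norm_num)
  have h2 := one_sub_q_ne (m := 2) (by norm_num)
  have h3 := one_sub_q_ne (m := 3) (by norm_num)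
  have h4 := one_sub_q_ne (m := 4) (by norm_num)
  have h5 := one_sub_q_ne (m := 5) (by norm_num)
  simp [u, poch, Finset.sum_range_succ, Finset.prod_range_succ, q0]
  field_simp
  ring

lemma u3 (p : ℤ) : u 3 p * ((1 - q 1) * (1 - q 2) * (1 - q 3) * (1 - q 4) * (1 - q 5) * (1 - q 6)) =
    -q 9 * ((1 - q 1) * (1 - q 5) * (1 - q 6) - q (2 * p) * (1 - q 3) ^ 2 * (1 - q 6) +
      q (6 * p + 1) * (1 - q 2) * (1 - q 3) * (1 - q 5) -
      q (12 * p + 3) * (1 - q 1) * (1 - q 2) * (1 - q 3)) := by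
  have h1 := one_sub_q_ne (m := 1) (by norm_num)
  have h2 := one_sub_q_ne (m := 2) (by norm_num)
  have h3 := one_sub_q_ne (m := 3) (by norm_num)
  have h4 := one_sub_q_ne (m := 4) (by norm_num)
  have h5 := one_sub_q_ne (m := 5) (by norm_num)
  have h6 := one_sub_q_ne (m := 6) (by norm_num)
  have h7 := one_sub_q_ne (m := 7) (by norm_num)
  simp [u, poch, Finset.sum_range_succ, Finset.prod_range_succ, q0]
  field_simp
  ring

lemma quot {x : LaurentSeries ℚ} {D N : PowerSeries ℚ} (k : ℕ) (hD : co 0 D ≠ 0)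
    (h : x * ((PowerSeries.X ^ k * D : PowerSeries ℚ) : LaurentSeries ℚ) =
      ((PowerSeries.X ^ k * N : PowerSeries ℚ) : LaurentSeries ℚ)) :
    ∃ V : PowerSeries ℚ, x = (V : LaurentSeries ℚ) ∧ V * D = N := by
  have hD' : PowerSeries.constantCoeff D ≠ 0 := by
    rwa [co, PowerSeries.coeff_zero_eq_constantCoeff] at hD
  have h1 : D⁻¹ * D = 1 := PowerSeries.inv_mul_cancel D hD'
  refine ⟨N * D⁻¹, ?_, by rw [mul_assoc, h1, mul_one]⟩
  have hD0 : D ≠ 0 := by
    intro h0
    rw [h0] at hD'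
    exact hD' (map_zero _)
  have h2 : ((PowerSeries.X ^ k * D : PowerSeries ℚ) : LaurentSeries ℚ) ≠ 0 := by
    intro h3
    rw [← PowerSeries.coe_zero] at h3
    exact mul_ne_zero (pow_ne_zero _ PowerSeries.X_ne_zero) hD0
      (HahnSeries.ofPowerSeries_injective h3)
  apply mul_right_cancel₀ h2
  rw [h, ← PowerSeries.coe_mul]
  congr 1
  linear_combination (-PowerSeries.X ^ k * N : PowerSeries ℚ) * h1

/-- the expansion of `u 1 p` -/
lemma v1 (p : ℤ) : ∃ V : PowerSeries ℚ, u 1 p = (V : LaurentSeries ℚ) ∧ co 0 V = -p ∧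
    co 1 V = -(p : ℚ) ^ 2 - p ∧ co 2 V = -(2 : ℚ) / 3 * p ^ 3 - p ^ 2 - p / 3 := by
  obtain ⟨V, hV, h⟩ := quot (x := u 1 p) (D := E 2) (N := -(e 2 * E (2 * p))) 1
    (by rw [E0]; norm_num) (by
      have h := u1 p
      rw [one_sub_q, one_sub_q] at h
      simp only [pow_one, PowerSeries.coe_mul, PowerSeries.coe_neg, ← q_eq] at h ⊢
      linear_combination -h)
  refine ⟨V, hV, ?_⟩
  have a0 := congrArg (co 0) h
  have a1 := congrArg (co 1) h
  have a2 := congrArg (co 2) h
  simp only [m0, m1, m2, m3, s, t, n, e0, e1, e2, e3, E0, E1, E2, E3] at a0 a1 a2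
  push_cast at a0 a1 a2
  have b0 : co 0 V = -p := by linarith
  rw [b0] at a1 a2
  have b1 : co 1 V = -(p : ℚ) ^ 2 - p := by linarith
  rw [b1] at a2
  refine ⟨b0, b1, by linarith⟩

/-- the expansion of `u 2 p` -/
lemma v2 (p : ℤ) : ∃ V : PowerSeries ℚ, u 2 p = (V : LaurentSeries ℚ) ∧ co 0 V = (p : ℚ) ^ 2 ∧
    co 1 V = 8 / 3 * (p : ℚ) ^ 3 + 5 / 2 * p ^ 2 - p / 6 := by
  set B : PowerSeries ℚ := E 1 * E 4 - e (2 * p) * E 2 * E 3 + e (6 * p + 1) * E 1 * E 2 with hB
  have b0 : co 0 B = 0 := by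
    rw [hB]
    simp only [m0, m1, m2, m3, s, t, n, e0, e1, e2, e3, E0, E1, E2, E3]
    push_cast
    ring
  have b1 : co 1 B = 0 := by
    rw [hB]
    simp only [m0, m1, m2, m3, s, t, n, e0, e1, e2, e3, E0, E1, E2, E3]
    push_cast
    ring
  obtain ⟨C, hC⟩ := (PowerSeries.X_pow_dvd_iff (n := 2) (φ := B)).2 (by
    intro m hm
    interval_cases m
    · exact b0
    · exact b1)
  have c0 : co 0 C = co 2 B := by
    rw [hC, co, co]
    rw [show (2 : ℕ) = 0 + 2 from rfl, PowerSeries.coeff_X_pow_mul]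
  have c1 : co 1 C = co 3 B := by
    rw [hC, co, co]
    rw [show (3 : ℕ) = 1 + 2 from rfl, PowerSeries.coeff_X_pow_mul]
  obtain ⟨V, hV, h⟩ := quot (x := u 2 p) (D := E 1 * E 2 * E 3 * E 4) (N := e 5 * C) 4
    (by simp only [m0, E0]; norm_num) (by
      have h := u2 p
      have h2 := congrArg (fun f : PowerSeries ℚ => (f : LaurentSeries ℚ)) hC
      rw [one_sub_q, one_sub_q, one_sub_q, one_sub_q] at h
      rw [hB] at h2
      simp only [PowerSeries.coe_mul, PowerSeries.coe_neg, PowerSeries.coe_add,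
        PowerSeries.coe_sub, ← q_eq, PowerSeries.coe_pow] at h h2 ⊢
      linear_combination h + (PowerSeries.X : PowerSeries ℚ) ^ 2 * q 5 * h2)
  refine ⟨V, hV, ?_⟩
  have a0 := congrArg (co 0) h
  have a1 := congrArg (co 1) h
  simp only [m0, m1, c0, c1] at a0 a1
  rw [hB] at a0 a1
  simp only [m0, m1, m2, m3, s, t, n, e0, e1, e2, e3, E0, E1, E2, E3] at a0 a1
  push_cast at a0 a1
  have b0 : co 0 V = (p : ℚ) ^ 2 := by linarith
  rw [b0] at a1
  exact ⟨b0, by linarith⟩

/-- the expansion of `u 3 p` -/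
lemma v3 (p : ℤ) : ∃ V : PowerSeries ℚ, u 3 p = (V : LaurentSeries ℚ) ∧
    co 0 V = -(p : ℚ) ^ 3 := by
  set B : PowerSeries ℚ := E 1 * E 5 * E 6 - e (2 * p) * (E 3 * E 3) * E 6 +
    e (6 * p + 1) * E 2 * E 3 * E 5 - e (12 * p + 3) * E 1 * E 2 * E 3 with hB
  have b0 : co 0 B = 0 := by
    rw [hB]
    simp only [m0, m1, m2, m3, s, t, n, e0, e1, e2, e3, E0, E1, E2, E3]
    push_cast
    ring
  have b1 : co 1 B = 0 := by
    rw [hB]
    simp only [m0, m1, m2, m3, s, t, n, e0, e1, e2, e3, E0, E1, E2, E3]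
    push_cast
    ring
  have b2 : co 2 B = 0 := by
    rw [hB]
    simp only [m0, m1, m2, m3, s, t, n, e0, e1, e2, e3, E0, E1, E2, E3]
    push_cast
    ring
  obtain ⟨C, hC⟩ := (PowerSeries.X_pow_dvd_iff (n := 3) (φ := B)).2 (by
    intro m hm
    interval_cases m
    · exact b0
    · exact b1
    · exact b2)
  have c0 : co 0 C = co 3 B := by
    rw [hC, co, co]
    rw [show (3 : ℕ) = 0 + 3 from rfl, PowerSeries.coeff_X_pow_mul]
  obtain ⟨V, hV, h⟩ := quot (x := u 3 p) (D := E 1 * E 2 * E 3 * E 4 * E 5 * E 6)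
    (N := e 9 * C) 6 (by simp only [m0, E0]; norm_num) (by
      have h := u3 p
      have h2 := congrArg (fun f : PowerSeries ℚ => (f : LaurentSeries ℚ)) hC
      rw [one_sub_q, one_sub_q, one_sub_q, one_sub_q, one_sub_q, one_sub_q] at h
      rw [hB] at h2
      simp only [PowerSeries.coe_mul, PowerSeries.coe_neg, PowerSeries.coe_add,
        PowerSeries.coe_sub, ← q_eq, PowerSeries.coe_pow] at h h2 ⊢
      linear_combination h + (PowerSeries.X : PowerSeries ℚ) ^ 3 * q 9 * h2)
  refine ⟨V, hV, ?_⟩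
  have a0 := congrArg (co 0) h
  simp only [m0, c0] at a0
  rw [hB] at a0
  simp only [m0, m1, m2, m3, s, t, n, e0, e1, e2, e3, E0, E1, E2, E3] at a0
  push_cast at a0
  linarith

lemma t0 (a b c : ℤ) : term a b c 0 = 1 := by
  have h := one_sub_q_ne (m := 1) one_ne_zero
  have h2 : term a b c 0 = (1 - q 1) / (1 - q 1) := by
    simp [term, u0, q0]
  rw [h2, div_self h]

lemma X_ne : ((PowerSeries.X : PowerSeries ℚ) : LaurentSeries ℚ) ≠ 0 := by
  intro h3
  rw [← PowerSeries.coe_zero] at h3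
  exact PowerSeries.X_ne_zero (HahnSeries.ofPowerSeries_injective h3)

lemma t1 (a b c : ℤ) : ∃ W : PowerSeries ℚ,
    term a b c 1 = ((PowerSeries.X * W : PowerSeries ℚ) : LaurentSeries ℚ) ∧
    co 0 W = -6 * (a * b * c : ℚ) ∧
    co 1 W = -6 * (a * b * c : ℚ) * (a + b + c) ∧
    co 2 W = (a * b * c : ℚ) * (-4 * (a + b + c) ^ 2 + 2 * (a * b + b * c + c * a)) := by
  obtain ⟨A, hA, A0, A1, A2⟩ := v1 a
  obtain ⟨B, hB, B0, B1, B2⟩ := v1 b
  obtain ⟨C, hC, C0, C1, C2⟩ := v1 c
  obtain ⟨W, hW, h⟩ := quot (x := term a b c 1 * ((PowerSeries.X : PowerSeries ℚ) :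
      LaurentSeries ℚ)⁻¹) (D := E 1)
    (N := A * B * C * e (-5) * E 2 * E 3) 0 (by simp only [E0]; norm_num) (by
      have h1 := one_sub_q_ne (m := 1) (by norm_num)
      have ht : term a b c 1 * (1 - q 1) =
          -(u 1 a * u 1 b * u 1 c * q (-5) * ((1 - q 2) * (1 - q 3))) := by
        simp [term, Finset.prod_range_succ]
        norm_num
        field_simp
      rw [hA, hB, hC, one_sub_q, one_sub_q, one_sub_q] at ht
      have hX := X_ne
      apply mul_left_cancel₀ (pow_ne_zero 2 hX)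
      simp only [PowerSeries.coe_mul, PowerSeries.coe_neg, PowerSeries.coe_add,
        PowerSeries.coe_sub, ← q_eq, PowerSeries.coe_pow, pow_zero, one_mul] at ht ⊢
      have hY := mul_inv_cancel₀ hX
      set Y := ((PowerSeries.X : PowerSeries ℚ) : LaurentSeries ℚ) with hYd
      linear_combination (Y * term a b c 1 * (E 1 : PowerSeries ℚ)) * hY - ht)
  refine ⟨W, ?_, ?_⟩
  · rw [PowerSeries.coe_mul, ← hW]
    have hX := X_ne
    field_simp
  have a0 := congrArg (co 0) h
  have a1 := congrArg (co 1) h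
  have a2 := congrArg (co 2) h
  simp only [m0, m1, m2, m3, s, t, n, e0, e1, e2, e3, E0, E1, E2, E3, A0, A1, A2, B0, B1, B2,
    C0, C1, C2] at a0 a1 a2
  push_cast at a0 a1 a2
  have b0 : co 0 W = -6 * (a * b * c : ℚ) := by linarith
  rw [b0] at a1 a2
  have b1 : co 1 W = -6 * (a * b * c : ℚ) * (a + b + c) := by linarith
  rw [b1] at a2
  refine ⟨b0, b1, by linarith⟩

lemma t2 (a b c : ℤ) : ∃ W : PowerSeries ℚ,
    term a b c 2 = ((PowerSeries.X ^ 2 * W : PowerSeries ℚ) : LaurentSeries ℚ) ∧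
    co 0 W = 60 * (a * b * c : ℚ) ^ 2 ∧
    co 1 W = 160 * (a * b * c : ℚ) ^ 2 * (a + b + c) -
      10 * (a * b * c) * (a * b + b * c + c * a) := by
  obtain ⟨A, hA, A0, A1⟩ := v2 a
  obtain ⟨B, hB, B0, B1⟩ := v2 b
  obtain ⟨C, hC, C0, C1⟩ := v2 c
  obtain ⟨W, hW, h⟩ := quot (x := term a b c 2 * ((PowerSeries.X : PowerSeries ℚ) :
      LaurentSeries ℚ)⁻¹ ^ 2) (D := E 1)
    (N := A * B * C * e (-13) * E 3 * E 4 * E 5) 0 (by simp only [E0]; norm_num) (by
      have h1 := one_sub_q_ne (m := 1) (by norm_num)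
      have ht : term a b c 2 * (1 - q 1) =
          u 2 a * u 2 b * u 2 c * q (-13) * ((1 - q 3) * (1 - q 4) * (1 - q 5)) := by
        simp [term, Finset.prod_range_succ]
        norm_num
        field_simp
      rw [hA, hB, hC, one_sub_q, one_sub_q, one_sub_q, one_sub_q] at ht
      have hX := X_ne
      apply mul_left_cancel₀ (pow_ne_zero 3 hX)
      simp only [PowerSeries.coe_mul, PowerSeries.coe_neg, PowerSeries.coe_add,
        PowerSeries.coe_sub, ← q_eq, PowerSeries.coe_pow, pow_zero, one_mul] at ht ⊢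
      have hY := mul_inv_cancel₀ hX
      set Y := ((PowerSeries.X : PowerSeries ℚ) : LaurentSeries ℚ) with hYd
      linear_combination (Y * term a b c 2 * (E 1 : PowerSeries ℚ)) * (Y * Y⁻¹ + 1) * hY - ht)
  refine ⟨W, ?_, ?_⟩
  · rw [PowerSeries.coe_mul, PowerSeries.coe_pow, ← hW]
    have hX := X_ne
    field_simp
  have a0 := congrArg (co 0) h
  have a1 := congrArg (co 1) h
  simp only [m0, m1, m2, m3, s, t, n, e0, e1, e2, e3, E0, E1, E2, E3, A0, A1, B0, B1,
    C0, C1] at a0 a1
  push_cast at a0 a1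
  have b0 : co 0 W = 60 * (a * b * c : ℚ) ^ 2 := by linarith
  rw [b0] at a1
  refine ⟨b0, by linarith⟩

lemma t3 (a b c : ℤ) : ∃ W : PowerSeries ℚ,
    term a b c 3 = ((PowerSeries.X ^ 3 * W : PowerSeries ℚ) : LaurentSeries ℚ) ∧
    co 0 W = -840 * (a * b * c : ℚ) ^ 3 := by
  obtain ⟨A, hA, A0⟩ := v3 a
  obtain ⟨B, hB, B0⟩ := v3 b
  obtain ⟨C, hC, C0⟩ := v3 c
  obtain ⟨W, hW, h⟩ := quot (x := term a b c 3 * ((PowerSeries.X : PowerSeries ℚ) :
      LaurentSeries ℚ)⁻¹ ^ 3) (D := E 1)
    (N := A * B * C * e (-24) * E 4 * E 5 * E 6 * E 7) 0 (by simp only [E0]; norm_num) (by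
      have h1 := one_sub_q_ne (m := 1) (by norm_num)
      have ht : term a b c 3 * (1 - q 1) =
          -(u 3 a * u 3 b * u 3 c * q (-24) *
            ((1 - q 4) * (1 - q 5) * (1 - q 6) * (1 - q 7))) := by
        simp [term, Finset.prod_range_succ]
        norm_num
        field_simp
      rw [hA, hB, hC, one_sub_q, one_sub_q, one_sub_q, one_sub_q, one_sub_q] at ht
      have hX := X_ne
      apply mul_left_cancel₀ (pow_ne_zero 4 hX)
      simp only [PowerSeries.coe_mul, PowerSeries.coe_neg, PowerSeries.coe_add,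
        PowerSeries.coe_sub, ← q_eq, PowerSeries.coe_pow, pow_zero, one_mul] at ht ⊢
      have hY := mul_inv_cancel₀ hX
      set Y := ((PowerSeries.X : PowerSeries ℚ) : LaurentSeries ℚ) with hYd
      linear_combination (Y * term a b c 3 * (E 1 : PowerSeries ℚ)) *
        (Y ^ 2 * Y⁻¹ ^ 2 + Y * Y⁻¹ + 1) * hY - ht)
  refine ⟨W, ?_, ?_⟩
  · rw [PowerSeries.coe_mul, PowerSeries.coe_pow, ← hW]
    have hX := X_ne
    field_simp
  have a0 := congrArg (co 0) h
  simp only [m0, m1, m2, m3, s, t, n, e0, e1, e2, e3, E0, E1, E2, E3, A0, B0, C0] at a0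
  push_cast at a0
  linarith

lemma co_shift (k d : ℕ) (W : PowerSeries ℚ) :
    ((PowerSeries.X ^ k * W : PowerSeries ℚ) : LaurentSeries ℚ).coeff ((d + k : ℕ) : ℤ) =
      co d W := by
  rw [PowerSeries.coeff_coe, if_neg (by omega)]
  rw [Int.natAbs_natCast, PowerSeries.coeff_X_pow_mul]

lemma co_low (k d : ℕ) (h : d < k) (W : PowerSeries ℚ) :
    ((PowerSeries.X ^ k * W : PowerSeries ℚ) : LaurentSeries ℚ).coeff (d : ℤ) = 0 := by
  rw [PowerSeries.coeff_coe, if_neg (by omega)]
  rw [Int.natAbs_natCast, PowerSeries.coeff_X_pow_mul', if_neg (by omega)]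

lemma co_one (d : ℕ) (h : 0 < d) : (1 : LaurentSeries ℚ).coeff (d : ℤ) = 0 := by
  rw [HahnSeries.coeff_one, if_neg]
  exact_mod_cast h.ne'

/-- the coefficient of degree 1 -/
lemma lam1 (a b c : ℤ) : ohtsuki a b c 1 = -6 * (a * b * c : ℚ) := by
  obtain ⟨W1, h1, x0, x1, x2⟩ := t1 a b c
  rw [ohtsuki]
  simp only [Finset.sum_range_succ, Finset.sum_range_zero, zero_add, t0, h1, HahnSeries.coeff_add]
  rw [co_one 1 one_pos]
  have := co_shift 1 0 W1
  rw [pow_one] at this
  norm_num at this ⊢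
  rw [this, x0]
  ring

/-- the coefficient of degree 2 -/
lemma lam2 (a b c : ℤ) : ohtsuki a b c 2 =
    60 * (a * b * c : ℚ) ^ 2 - 6 * (a * b * c) * (a + b + c) := by
  obtain ⟨W1, h1, x0, x1, x2⟩ := t1 a b c
  obtain ⟨W2, h2, y0, y1⟩ := t2 a b c
  rw [ohtsuki]
  simp only [Finset.sum_range_succ, Finset.sum_range_zero, zero_add, t0, h1, h2,
    HahnSeries.coeff_add]
  rw [co_one 2 two_pos]
  have := co_shift 1 1 W1
  have h4 := co_shift 2 0 W2
  rw [pow_one] at this
  norm_num at this h4 ⊢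
  rw [this, h4, x1, y0]
  ring

/-- the coefficient of degree 3 -/
lemma lam3 (a b c : ℤ) : ohtsuki a b c 3 =
    -840 * (a * b * c : ℚ) ^ 3 + 160 * (a * b * c) ^ 2 * (a + b + c) -
      4 * (a * b * c) * ((a + b + c) ^ 2 + 2 * (a * b + b * c + c * a)) := by
  obtain ⟨W1, h1, x0, x1, x2⟩ := t1 a b c
  obtain ⟨W2, h2, y0, y1⟩ := t2 a b c
  obtain ⟨W3, h3, z0⟩ := t3 a b c
  rw [ohtsuki]
  simp only [Finset.sum_range_succ, Finset.sum_range_zero, zero_add, t0, h1, h2, h3,
    HahnSeries.coeff_add]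
  rw [co_one 3 three_pos]
  have := co_shift 1 2 W1
  have h4 := co_shift 2 1 W2
  have h5 := co_shift 3 0 W3
  rw [pow_one] at this
  norm_num at this h4 h5 ⊢
  rw [this, h4, h5, x2, y1, z0]
  ring

/-! ### the elementary symmetric functions -/

lemma perm_of_sym {a b c x y z : ℤ} (h1 : a + b + c = x + y + z)
    (h2 : a * b + b * c + c * a = x * y + y * z + z * x) (h3 : a * b * c = x * y * z) :
    ({a, b, c} : Multiset ℤ) = {x, y, z} := by
  have h : (x - a) * (x - b) * (x - c) = 0 := by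
    linear_combination (-x ^ 2) * h1 + x * h2 - h3
  have two : ∀ {b c y z : ℤ}, b + c = y + z → b * c = y * z →
      ({b, c} : Multiset ℤ) = {y, z} := by
    intro b c y z k1 k2
    have k : (y - b) * (y - c) = 0 := by linear_combination (-y) * k1 + k2
    rcases mul_eq_zero.1 k with k | k
    · have e1 : b = y := by linarith
      have e2 : c = z := by linarith
      rw [e1, e2]
    · have e1 : c = y := by linarith
      have e2 : b = z := by linarith
      rw [e1, e2, Multiset.pair_comm]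
  rcases mul_eq_zero.1 h with h | h
  · rcases mul_eq_zero.1 h with h | h
    · have e1 : a = x := by linarith
      subst e1
      have k1 : b + c = y + z := by linarith
      have k2 : b * c = y * z := by linear_combination h2 - a * k1
      have := two k1 k2
      change a ::ₘ ({b, c} : Multiset ℤ) = a ::ₘ ({y, z} : Multiset ℤ)
      rw [this]
    · have e1 : b = x := by linarith
      subst e1
      have k1 : a + c = y + z := by linarith
      have k2 : a * c = y * z := by linear_combination h2 - b * k1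
      have := two k1 k2
      change a ::ₘ (b ::ₘ ({c} : Multiset ℤ)) = b ::ₘ ({y, z} : Multiset ℤ)
      rw [Multiset.cons_swap, ← this]
      rfl
  · have e1 : c = x := by linarith
    subst e1
    have k1 : a + b = y + z := by linarith
    have k2 : a * b = y * z := by linear_combination h2 - c * k1
    have := two k1 k2
    change a ::ₘ (b ::ₘ ({c} : Multiset ℤ)) = c ::ₘ ({y, z} : Multiset ℤ)
    rw [← this]
    have e3 : (b ::ₘ ({c} : Multiset ℤ)) = c ::ₘ ({b} : Multiset ℤ) := Multiset.pair_comm b c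
    rw [e3, Multiset.cons_swap]
    rfl

/-- The homology sphere `M(a, b, c)` is a homology sphere `M(a', b', c')`: both are the 3-sphere
(a coefficient vanishes), or the coefficients agree up to the order. -/
def Same (a b c a' b' c' : ℤ) : Prop :=
  (a * b * c = 0 ∧ a' * b' * c' = 0) ∨ ({a, b, c} : Multiset ℤ) = {a', b', c'}

/-- **The LMO invariant separates the homology spheres obtained by surgery on the Borromean
rings.**
(1) The coefficients of degree 1, 2, 3 of the Ohtsuki series.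
(2) If these three coefficients of `M(a, b, c)` and `M(a', b', c')` are equal, then the two
manifolds are both the 3-sphere or their surgery coefficients agree up to the order; and
conversely. -/
theorem result :
    (∀ a b c : ℤ, ohtsuki a b c 1 = -6 * (a * b * c : ℚ) ∧
      ohtsuki a b c 2 = 60 * (a * b * c : ℚ) ^ 2 - 6 * (a * b * c) * (a + b + c) ∧
      ohtsuki a b c 3 = -840 * (a * b * c : ℚ) ^ 3 + 160 * (a * b * c) ^ 2 * (a + b + c) -
        4 * (a * b * c) * ((a + b + c) ^ 2 + 2 * (a * b + b * c + c * a))) ∧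
    (∀ a b c a' b' c' : ℤ,
      (ohtsuki a b c 1 = ohtsuki a' b' c' 1 ∧ ohtsuki a b c 2 = ohtsuki a' b' c' 2 ∧
        ohtsuki a b c 3 = ohtsuki a' b' c' 3) ↔ Same a b c a' b' c') := by
  refine ⟨fun a b c => ⟨lam1 a b c, lam2 a b c, lam3 a b c⟩, fun a b c x y z => ⟨?_, ?_⟩⟩
  · rintro ⟨h1, h2, h3⟩
    rw [lam1, lam1] at h1
    rw [lam2, lam2] at h2
    rw [lam3, lam3] at h3
    have k3 : (a * b * c : ℚ) = x * y * z := by linarith
    by_cases h0 : a * b * c = 0
    · left
      refine ⟨h0, ?_⟩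
      have : (a * b * c : ℚ) = 0 := by exact_mod_cast h0
      rw [this] at k3
      exact_mod_cast k3.symm
    · right
      have h0' : (a * b * c : ℚ) ≠ 0 := by exact_mod_cast h0
      rw [← k3] at h2 h3
      have k1 : (a + b + c : ℚ) = x + y + z := by
        have : (a * b * c : ℚ) * (a + b + c) = (a * b * c) * (x + y + z) := by linarith
        exact mul_left_cancel₀ h0' this
      rw [← k1] at h3
      have k2 : (a * b + b * c + c * a : ℚ) = x * y + y * z + z * x := by
        have : (a * b * c : ℚ) * (a * b + b * c + c * a) =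
          (a * b * c) * (x * y + y * z + z * x) := by linarith
        exact mul_left_cancel₀ h0' this
      exact perm_of_sym (by exact_mod_cast k1) (by exact_mod_cast k2) (by exact_mod_cast k3)
  · rintro (⟨h0, h1⟩ | h)
    · have e1 : (a * b * c : ℚ) = 0 := by exact_mod_cast h0
      have e2 : (x * y * z : ℚ) = 0 := by exact_mod_cast h1
      rw [lam1, lam1, lam2, lam2, lam3, lam3, e1, e2]
      simp
    · have s1 : a + b + c = x + y + z := by
        have := congrArg Multiset.sum h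
        simp at this
        linarith
      have s3 : a * b * c = x * y * z := by
        have := congrArg Multiset.prod h
        simp at this
        linarith
      have s2 : a * b + b * c + c * a = x * y + y * z + z * x := by
        have := congrArg (fun m : Multiset ℤ => (m.map (fun t => t ^ 2)).sum) h
        simp at this
        have h4 : (a + b + c) ^ 2 = (x + y + z) ^ 2 := by rw [s1]
        linarith
      have e1 : (a + b + c : ℚ) = x + y + z := by exact_mod_cast s1
      have e2 : (a * b + b * c + c * a : ℚ) = x * y + y * z + z * x := by exact_mod_cast s2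
      have e3 : (a * b * c : ℚ) = x * y * z := by exact_mod_cast s3
      rw [lam1, lam1, lam2, lam2, lam3, lam3, e1, e2, e3]
      simp

end Pool.Agent.Results.MP_27a3bb_gt.BorromeanSurgeries
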