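import Pool.Agent.V8H83.LM.Pte

/-!
# The LMO invariant separates the connected sums of the surgeries `1 / n` on a knot of genus one

For a knot `K` let `S(K, n)` be the integral homology sphere obtained by surgery with the
coefficient `-1 / n` on `K`, `n` an integer; `S(K, 0)` is the 3-sphere.

By a theorem of Ohtsuki the part of degree at most `d` of the LMO invariant of an integral homology
sphere determines the coefficients of degree at most `d` of its Ohtsuki series (the perturbative
`SO(3)` invariant) `τ(h)`, `q = exp h`.  The Ohtsuki series is multiplicative under connected sums.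
By Habiro's theorem the coloured Jones polynomial of a knot `K` (in the normalisation where the
unknot has the value 1) is

  `J_N(K) = ∑_m a_m ∏_{1 ≤ i ≤ m} (q^N + q^{-N} - q^i - q^{-i})`

with Laurent polynomials `a_m` in `q` with integral coefficients, `a_0 = 1`.  By the theorem of Melvin,
Morton and Rozansky (Bar-Natan and Garoufalidis) their values `α_m` at `q = 1` are given by

  `∑_m α_m z^m = 1 / Δ_K`,  `z = t - 2 + t^{-1}`,  `Δ_K = 1 + a_2(K) z + a_4(K) z^2 + ⋯`,

where `Δ_K` is the Alexander polynomial, so that `α_1 = - a_2(K)`, `α_2 = a_2(K)^2 - a_4(K)`.  The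
formula for the surgery element in terms of Habiro's basis (Habiro, Masbaum) gives the Ohtsuki series
of `S(K, n)`,

  `τ = ∑_m a_m q^{-m (m + 2)} u_m(n) (q^{m+1}; q)_{m+1} / (1 - q)`,

  `u_m(n) = (-1)^m q^{m (m + 3) / 2} (q; q)_m
     ∑_{k ≤ m} (-1)^k q^{k (k + 1) n + k (k - 1) / 2} (1 - q^{2 k + 1}) /
       ((q; q)_{m + k + 1} (q; q)_{m - k})`.

For the double twist knot `K(b, c)` which is obtained from the Borromean rings by the surgeries
`-1 / b`, `-1 / c` on two of the components, `a_m = (-1)^m q^{-m (m + 3) / 2} u_m(b) u_m(c)` and
`Δ = 1 + b c z`; the double twist knots are all two-bridge knots of genus one.  For instance the trefoils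
are `K(1, 1)` and `K(-1, -1)`, the figure eight knot is `K(1, -1)`.

Definitions (`Pool.Agent.V8H83.LM.Defs`):

* `q m = exp (m h)`, as a Laurent series in `h`; `poch n = (q; q)_n`; `u m n`: the Laurent series
  `u_m(n)`;
* `term a n m`: the `m`-th term of the formula for `τ`; `ohtsuki a n`: the series `τ` of `S(K, n)` for a
  knot with the coefficients `a m` (written as power series in `h`); its coefficient of `h^d` is
  the sum of those of the terms `m ≤ d`, the others are divisible by `h^(d + 1)`;
* `bterm`, `borromean b c n`: the same for the surgeries `-1 / b`, `-1 / c`, `-1 / n` on the Borromean rings,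
  that is for the knots `K(b, c)`.

Proof.  The coefficient of `h^d` of the logarithmic derivative `h τ' / τ` is a polynomial in `n` of
degree at most `d` which vanishes at `n = 0`.  Up to a nonzero factor its leading coefficient is the
`d`-th cumulant `κ_d` of the numbers `μ_d = ∑_m α_m ((2 m + 1)! / 2^m) T(d, m)`, `T(d, m)` the complete
homogeneous symmetric polynomial of degree `d - m` in `1, 3, 6, …, m (m + 1) / 2`.  The cumulants do not
vanish: `κ_d ≡ 3 (α_1 + α_2)` modulo `9` for `d ≥ 2`; if `α_m = c^m` then `κ_d ≡ 3 c` modulo `3 c^2`, and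
for `c = -1` the cumulants are not divisible by `8`.  So the coefficients of the logarithmic
derivative of `τ(M)` determine all power sums of the parameters of a connected sum `M`.  As the
coefficient of `h^d` only depends on the power sums of degree at most `d`, two connected sums whose
parameters form a solution of the Prouhet-Tarry-Escott problem have the same coefficients up to a
given degree.
-/

set_option autoImplicit false

open Pool.Agent.V8H83.LM

namespace Pool.Agent.Results.MP_27a3bb_gt.ConnectedSums

/-- **The LMO invariant separates the connected sums of the surgeries `1 / n` on a knot of genus one.**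
(1) The `m`-th term of the series is divisible by `h^m`; the factor `u_m(n)` is a power series in `h`
with the constant term `(-n)^m`.
(2) Let `a_m` be the cyclotomic coefficients of a knot with `α_1 ≠ 0` such that `3` does not divide
`α_1 + α_2` or `α_m = α_1^m` for all `m` (the Alexander polynomial has degree one, for instance the knot
has genus one and its Alexander polynomial is not 1).  Then the Ohtsuki series of two connected sums
of homology spheres `S(K, n)` are equal if and only if the summands different from the 3-sphere are
the same.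
(3) The same for the double twist knots `K(b, c)`, `b, c ≠ 0`.
(4) No bounded part of the series has this property: for each knot and each `D` there are two
different connected sums of homology spheres `S(K, n)`, `n > 0`, whose Ohtsuki series agree up to
`h^D`. -/
theorem result :
    (∀ (a : ℕ → PowerSeries ℚ) (n : ℤ) (m : ℕ),
      (∃ V : PowerSeries ℚ,
        term a n m = ((PowerSeries.X ^ m * V : PowerSeries ℚ) : LaurentSeries ℚ)) ∧
      ∃ V : PowerSeries ℚ, u m n = (V : LaurentSeries ℚ) ∧
        PowerSeries.constantCoeff V = (-(n : ℚ)) ^ m) ∧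
    (∀ (a : ℕ → PowerSeries ℚ) (α : ℕ → ℤ), a 0 = 1 →
      (∀ m, PowerSeries.constantCoeff (a m) = (α m : ℚ)) → α 1 ≠ 0 →
      (¬ (3 : ℤ) ∣ α 1 + α 2 ∨ ∀ m, α m = α 1 ^ m) →
      ∀ M M' : Multiset ℤ, (M.map (ohtsuki a)).prod = (M'.map (ohtsuki a)).prod ↔
        M.filter (· ≠ 0) = M'.filter (· ≠ 0)) ∧
    (∀ b c : ℤ, b ≠ 0 → c ≠ 0 →
      ∀ M M' : Multiset ℤ, (M.map (borromean b c)).prod = (M'.map (borromean b c)).prod ↔
        M.filter (· ≠ 0) = M'.filter (· ≠ 0)) ∧
    (∀ a : ℕ → PowerSeries ℚ, a 0 = 1 → ∀ D : ℕ, ∃ M M' : Multiset ℤ,
      (∀ v ∈ M, 0 < v) ∧ (∀ v ∈ M', 0 < v) ∧ M ≠ M' ∧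
      ∀ d ≤ D, PowerSeries.coeff d (M.map (ohtsuki a)).prod =
        PowerSeries.coeff d (M'.map (ohtsuki a)).prod) :=
  ⟨fun a n m => ⟨term_dvd a n m, R_u m n⟩,
    fun a α ha h h1 h2 M M' => general a α ha h h1 h2 M M',
    fun b c hb hc M M' => borromean_iff b c hb hc M M',
    fun a ha D => not_bounded a ha D⟩

end Pool.Agent.Results.MP_27a3bb_gt.ConnectedSums
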