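import Pool.Agent.V8H83.LM.Link
import Pool.Agent.V8H83.LM.Pair

/-!
# The LMO invariant and surgeries on different knots and links

For an algebraically split link `L` with `r` components (pairwise linking numbers 0) and integers
`n_1, …, n_r` let `S(L, n)` be the integral homology sphere obtained by the surgeries
`-1 / n_1, …, -1 / n_r` on `L`.  (Every integral homology sphere is of this form with `n_i = ± 1`.)

By a theorem of Ohtsuki the part of degree at most `d` of the LMO invariant of an integral homology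
sphere determines the coefficients of degree at most `d` of its Ohtsuki series (the perturbative
`SO(3)` invariant) `τ(h)`, `q = exp h`.  Let `P'_0, P'_1, …` be Habiro's basis of the representation
ring of quantum `sl_2`.  The coefficients

  `b_m = J_L(P'_{m_1}, …, P'_{m_r})`,  `m = (m_1, …, m_r)`,

of `L` are Laurent polynomials in `q^{1/2} = exp (h / 2)`, they are equivalent to the coloured Jones
polynomials of `L` for all colours, and by Habiro's integrality theorem `b_m` is divisible by
`(q^{k + 1}; q)_{k + 1} / (1 - q)` for `k = max m_i`, in particular by `h^k`.  The formula for the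
surgery element in this basis (Habiro, Masbaum) gives the Ohtsuki series of `S(L, n)`,

  `τ = ∑_m b_m ∏_i (-1)^{m_i} q^{-m_i (m_i + 3) / 4} u_{m_i}(n_i)`,

  `u_m(n) = (-1)^m q^{m (m + 3) / 2} (q; q)_m
     ∑_{k ≤ m} (-1)^k q^{k (k + 1) n + k (k - 1) / 2} (1 - q^{2 k + 1}) /
       ((q; q)_{m + k + 1} (q; q)_{m - k})`.

For a knot `K` (`r = 1`) one has `b_m = (-1)^m q^{-m (3 m + 5) / 4} a_m (q^{m+1}; q)_{m+1} / (1 - q)` where
`a_m ∈ ℤ[q, q⁻¹]`, `a_0 = 1`, are the cyclotomic coefficients of the coloured Jones polynomial,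

  `J_N(K) = ∑_m a_m ∏_{1 ≤ i ≤ m} (q^N + q^{-N} - q^i - q^{-i})`,

and `τ = ∑_m a_m q^{-m (m + 2)} u_m(n) (q^{m+1}; q)_{m+1} / (1 - q)`.  By the theorem of Melvin, Morton and
Rozansky (Bar-Natan and Garoufalidis) the values `α_m` of the `a_m` at `q = 1` are given by
`∑_m α_m z^m = 1 / Δ_K`, `z = t - 2 + t^{-1}`, `Δ_K = 1 + a_2(K) z + a_4(K) z^2 + ⋯`, so that
`α_1 = - a_2(K)`, `α_1 + 10 α_2 = - a_2(K) + 10 (a_2(K)^2 - a_4(K))`.

Definitions (`Pool.Agent.V8H83.LM.Defs`, `Pool.Agent.V8H83.LM.LinkDefs`):

* `q m = exp (m h)`, `v k = exp (k h / 2)`, as Laurent series in `h`; `poch n = (q; q)_n`; `u m n`: the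
  series `u_m(n)`;
* `term a n m`, `ohtsuki a n`: the `m`-th term of the formula for `τ` for a knot with the coefficients
  `a m`, and the series `τ`; its coefficient of `h^d` is the sum of those of the terms `m ≤ d`, the
  others are divisible by `h^(d + 1)`;
* `lterm b n m`, `lohtsuki b n`: the same for a link with the coefficients `b m`; the coefficient of `h^d`
  is the sum of those of the terms with `m_i ≤ d` for all `i`.

Proof.  `u_m(n)` is a power series in `h` with the constant term `(-n)^m`.  Let `D` be the least order of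
a difference `b_m - b'_m`.  Then the coefficient of `h^D` of `τ(S(L, n)) - τ(S(L', n))` is
`∑_m c_m n_1^{m_1} ⋯ n_r^{m_r}` with `c_m` the coefficient of `h^D` of `b_m - b'_m`, a nonzero polynomial.
For a knot the coefficients of `h` and `h^2` of the Ohtsuki series are `6 α_1 n` and
`λ n + 6 (α_1 + 10 α_2) n^2` with a number `λ`.
-/

set_option autoImplicit false

open Pool.Agent.V8H83.LM

namespace Pool.Agent.Results.MP_27a3bb_gt.DifferentKnots

/-- **The LMO invariant separates almost all surgeries on different knots and links.**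
(1) Let `L`, `L'` be algebraically split links with `r` components with different coloured Jones
functions (some coefficient of `h^D` of some `b_m`, `b'_m` is different).  Then there is a nonzero
polynomial in `r` variables, of degree at most `D` in each of them, which vanishes at all `n` for which the
Ohtsuki series of `S(L, n)` and `S(L', n)` are equal.
(2) In particular for each finite set `S` of integers the proportion of these `n` in `S^r` is at most
`r D / |S|`.
(3) Let `K`, `K'` be knots such that the coefficients of `h^e` of `a_m`, `a'_m` are different.  Then the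
Ohtsuki series of `S(K, n)` and `S(K', n)` are equal for at most `m + e - 1` integers `n ≠ 0`.
(4) If the Ohtsuki series of `S(K, n)` and `S(K', n)` are equal for infinitely many `n` then `K` and
`K'` have the same coloured Jones function.
(5) Let `K`, `K'` be knots with `α_1, α'_1 ≠ 0` and
`α_1^2 (α'_1 + 10 α'_2) ≠ α'_1^2 (α_1 + 10 α_2)`.  Then there is at most one pair of nonzero integers
`(n, n')` such that the Ohtsuki series of `S(K, n)` and `S(K', n')` have the same coefficients of `h` and
`h^2`. -/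
theorem result :
    (∀ (r : ℕ) (b b' : (Fin r → ℕ) → PowerSeries ℚ), (∀ m i, PowerSeries.X ^ m i ∣ b m) →
      (∀ m i, PowerSeries.X ^ m i ∣ b' m) → ∀ (m : Fin r → ℕ) (D : ℕ),
      PowerSeries.coeff D (b m) ≠ PowerSeries.coeff D (b' m) →
      (∃ F : MvPolynomial (Fin r) ℚ, F ≠ 0 ∧ (∀ i, F.degreeOf i ≤ D) ∧
        ∀ n : Fin r → ℤ, lohtsuki b n = lohtsuki b' n →
          MvPolynomial.eval (fun i => (n i : ℚ)) F = 0) ∧
      ∀ (s : Finset (Fin r → ℤ)) (S : Finset ℤ),
        (∀ n ∈ s, (∀ i, n i ∈ S) ∧ lohtsuki b n = lohtsuki b' n) →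
        s.card * S.card ≤ r * D * S.card ^ r) ∧
    (∀ a a' : ℕ → PowerSeries ℚ, a 0 = 1 → a' 0 = 1 →
      (∀ m e : ℕ, PowerSeries.coeff e (a m) ≠ PowerSeries.coeff e (a' m) →
        ∀ s : Finset ℤ, (∀ n ∈ s, n ≠ 0 ∧ ohtsuki a n = ohtsuki a' n) → s.card + 1 ≤ m + e) ∧
      (Set.Infinite {n : ℤ | ohtsuki a n = ohtsuki a' n} → a = a')) ∧
    (∀ (a a' : ℕ → PowerSeries ℚ) (α α' : ℕ → ℤ), a 0 = 1 → a' 0 = 1 →
      (∀ m, PowerSeries.constantCoeff (a m) = (α m : ℚ)) →
      (∀ m, PowerSeries.constantCoeff (a' m) = (α' m : ℚ)) → α 1 ≠ 0 → α' 1 ≠ 0 →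
      α 1 ^ 2 * (α' 1 + 10 * α' 2) ≠ α' 1 ^ 2 * (α 1 + 10 * α 2) →
      ∀ n n' k k' : ℤ, n ≠ 0 → k ≠ 0 →
      (∀ d ≤ 2, PowerSeries.coeff d (ohtsuki a n) = PowerSeries.coeff d (ohtsuki a' n')) →
      (∀ d ≤ 2, PowerSeries.coeff d (ohtsuki a k) = PowerSeries.coeff d (ohtsuki a' k')) →
      n = k ∧ n' = k') :=
  ⟨fun _ b b' hb hb' m D h => ⟨exists_poly b b' hb hb' m D h, zippel b b' hb hb' m D h⟩,
    fun a a' ha ha' => ⟨same_n a a' ha ha', infinite_eq a a' ha ha'⟩,
    pairs⟩

end Pool.Agent.Results.MP_27a3bb_gt.DifferentKnots
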