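import Pool.Agent.R811.Cross.Closed
import Pool.Agent.V8H81.Rnd.General
import Pool.Agent.V8H81.Urp.Gen
import Pool.Agent.V8H81.Cas.Fub

/-!
# Surgeries on random knots and the degree one part of the LMO invariant

For a knot `K` in the 3-sphere and an integer `p` let `S(K, p)` be the integral homology sphere obtained by
surgery on `K` with coefficient `1 / p` (`S(K, 0)` is the 3-sphere). By Casson's surgery formula its Casson invariant is
`p a_2(K)`, where `a_2(K)` is the coefficient of `z^2` of the Conway polynomial of `K`, and the Casson invariant is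
additive for connected sums. The part of degree one of the LMO invariant of an integral homology sphere is its Casson
invariant (times the theta graph, up to a fixed nonzero factor). The Jones polynomial of `K` is
`1 - 3 a_2(K) h^2 + O(h^3)` at `t = exp h`; in the variable `A`, `t = A^{-4}`, this says that
`∑ c_k k^2 = -96 a_2(K)` if the `f`-polynomial of `K` is `∑ c_k A^k`.

Definitions from the library:

* `Pool.Agent.H891R2.Jones.Diagram` (starting library): `Diagram P` (oriented link diagrams with marked points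
  `P`), `Diagram.IsClosed` (the pieces fit together to closed oriented curves), `Diagram.fPoly` (the normalised
  bracket `(-A^{-3})^{w(D)} ⟨D⟩`, a Laurent polynomial in `A = T 1`).
* `Pool.Agent.TH561.PK.Defs` (starting library): `IsKnot D` (all marked points are on one curve).
* `Pool.Agent.V8H81.Urp.Vol`: a closed polygon in space with `n` vertices is given by the `3 n` coordinates
  `V (a, i)` of its vertices `a` (`a : Fin n`, `i : Fin 3`), the edge `a` runs from the vertex `a` to the vertex
  `a + 1` modulo `n`; `shade V a = (V (a, 0), V (a, 1))`, `height V a = V (a, 2)`.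
* `Pool.Agent.V8H81.Urp.Defs`, for a closed polygon `P` in the plane and heights `z` of its vertices: `par P a b`,
  the parameter on the edge `a` of its intersection with the edge `b`; `Cross P a b`: the edges `a` and `b` cross in
  interior points of both; `General P`: no three vertices of `P` are on a line, and no three edges cross in one
  point; `hgt P z a b`: the height of the edge `a` over its crossing with the edge `b`; `lift P h z`: the
  diagram of the polygon with the vertices `(P a, z a)`, with the smaller height below.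

Proof. The probability that `a_2` of a uniform random polygon has a given value is at most `C n^(-1/10)`
(`Pool.Agent.V8H81.Urp`, see `MP_42db45_gt`); for a nontrivial integral combination of the `a_2` of independent
polygons we fix all polygons but one (`Pool.Agent.V8H81.Cas.Fub`).
-/

set_option autoImplicit false

namespace Pool.Agent.Results.MP_27a3bb_gt.RandomSurgeries

open MeasureTheory LaurentPolynomial Pool.Agent.H891R2.Jones Pool.Agent.V8H81.Urp

/-- `∑ c_k k^2` for the Laurent polynomial `∑ c_k A^k` -/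
noncomputable def second (f : ℤ[T;T⁻¹]) : ℤ := f.coeff.sum fun k c => c * k ^ 2

open Classical in
/-- the coefficient `a_2` of the knot type of the closed polygon `V` (`0` if its projection is not in general
position) -/
noncomputable def a2 {n : ℕ} [NeZero n] (V : Fin n × Fin 3 → ℝ) : ℚ :=
  if h : General (shade V) then -(second (lift (shade V) h (height V)).fPoly : ℚ) / 96 else 0

/-- the Casson invariant of the connected sum of the `S(V i, p i)`, `i : Fin k` -/
noncomputable def casson {k : ℕ} {n : Fin k → ℕ} [∀ i, NeZero (n i)] (V : ∀ i, Fin (n i) × Fin 3 → ℝ)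
    (p : Fin k → ℤ) : ℚ := ∑ i, (p i : ℚ) * a2 (V i)

theorem a2_eq_set {n : ℕ} [NeZero n] (c : ℚ) : {V : Fin n × Fin 3 → ℝ | a2 V = c} =
    EV n (fun f => -(second f : ℚ) / 96 = c) ∪ ({V | ¬ General (shade V)} ∩ {_V | (0 : ℚ) = c}) := by
  ext V
  simp only [Set.mem_ofPred_eq, Set.mem_union, Set.mem_inter_iff, EV]
  unfold a2
  by_cases h : General (shade V)
  · rw [dif_pos h]
    constructor
    · intro h1
      exact Or.inl ⟨h, h1⟩
    · rintro (⟨_, h1⟩ | ⟨h1, _⟩)
      · exact h1
      · exact absurd h h1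
  · rw [dif_neg h]
    constructor
    · intro h1
      exact Or.inr ⟨h, h1⟩
    · rintro (⟨h1, _⟩ | ⟨_, h1⟩)
      · exact absurd h1 h
      · exact h1

theorem measurable_a2 {n : ℕ} [NeZero n] : Measurable (a2 : (Fin n × Fin 3 → ℝ) → ℚ) := by
  apply measurable_to_countable'
  intro c
  show MeasurableSet {V : Fin n × Fin 3 → ℝ | a2 V = c}
  rw [a2_eq_set]
  refine (meas_EV _).union ?_
  by_cases h : (0 : ℚ) = c
  · have e : ({V | ¬ General (shade V)} ∩ {_V | (0 : ℚ) = c} : Set (Fin n × Fin 3 → ℝ)) =
        {V | General (shade V)}ᶜ := by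
      ext V; simp [h]
    rw [e]
    exact meas_general.compl
  · have e : ({V | ¬ General (shade V)} ∩ {_V | (0 : ℚ) = c} : Set (Fin n × Fin 3 → ℝ)) = ∅ := by
      ext V; simp [h]
    rw [e]
    exact MeasurableSet.empty

/-- one polygon: each value of `a2` has small probability -/
theorem single {n : ℕ} [NeZero n] (c : ℚ) : volume (Set.Icc (0 : Fin n × Fin 3 → ℝ) 1 ∩ {V | a2 V = c}) ≤
    ENNReal.ofReal ((2 * C0 + 2) * (n : ℝ) ^ (-(1 / 10) : ℝ)) := by
  have hae : (Set.Icc (0 : Fin n × Fin 3 → ℝ) 1 : Set (Fin n × Fin 3 → ℝ)) =ᵐ[volume]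
      cube (Fin n × Fin 3) 1 := by
    rw [cube_eq]
    exact (Measure.univ_pi_Ico_ae_eq_Icc (μ := fun _ : Fin n × Fin 3 => (volume : Measure ℝ))
      (f := fun _ => (0:ℝ)) (g := fun _ => (1:ℝ))).symm
  have h1 : volume (Set.Icc (0 : Fin n × Fin 3 → ℝ) 1 ∩ {V | a2 V = c}) =
      volume ({V | a2 V = c} ∩ cube (Fin n × Fin 3) 1) := by
    rw [Set.inter_comm {V : Fin n × Fin 3 → ℝ | a2 V = c}]
    exact measure_congr (hae.inter (Filter.EventuallyEq.refl _ _))
  rw [h1]
  rcases le_or_gt n 2 with hn | hn
  · refine (measure_mono Set.inter_subset_right).trans ?_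
    rw [volume_cube, ← ENNReal.ofReal_one]
    apply ENNReal.ofReal_le_ofReal
    have hn0 : 0 < n := Nat.pos_of_ne_zero (NeZero.ne n)
    have h2 : (2 : ℝ) ^ (-(1 / 10) : ℝ) ≤ (n : ℝ) ^ (-(1 / 10) : ℝ) :=
      Real.rpow_le_rpow_of_nonpos (by exact_mod_cast hn0) (by exact_mod_cast hn) (by norm_num)
    have h3 : (2 : ℝ) ^ (-1 : ℝ) ≤ (2 : ℝ) ^ (-(1 / 10) : ℝ) :=
      Real.rpow_le_rpow_of_exponent_le (by norm_num) (by norm_num)
    rw [Real.rpow_neg_one] at h3
    have h4 := C0_pos
    nlinarith
  · have h2 : volume ({V : Fin n × Fin 3 → ℝ | a2 V = c} ∩ cube (Fin n × Fin 3) 1) ≤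
        volume (EV n (fun f => -(second f : ℚ) / 96 = c) ∩ cube (Fin n × Fin 3) 1) := by
      apply measure_mono_ae
      filter_upwards [ae_general hn] with V hV
      rintro ⟨h3, h4⟩
      refine ⟨⟨hV.1, ?_⟩, h4⟩
      have h5 : a2 V = c := h3
      unfold a2 at h5
      rw [dif_pos hV.1] at h5
      exact h5
    refine h2.trans ?_
    by_cases hc : ∃ z : ℤ, -(z : ℚ) / 96 = c
    · obtain ⟨z, hz⟩ := hc
      refine le_trans (measure_mono ?_) (vol_moment (n := n) z)
      rintro V ⟨⟨h3, h4⟩, h5⟩
      refine ⟨⟨h3, ?_⟩, h5⟩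
      have h6 : (second (lift (shade V) h3 (height V)).fPoly : ℚ) = z := by
        rw [← hz] at h4
        linarith
      exact_mod_cast h6
    · have e : EV n (fun f => -(second f : ℚ) / 96 = c) = ∅ := by
        apply Set.eq_empty_of_forall_notMem
        rintro V ⟨h3, h4⟩
        exact hc ⟨_, h4⟩
      rw [e, Set.empty_inter, measure_empty]
      exact zero_le

theorem icc_le {n : ℕ} : volume (Set.Icc (0 : Fin n × Fin 3 → ℝ) 1) ≤ 1 := by
  rw [Real.volume_Icc_pi]
  simp

/-- a nontrivial combination of independent polygons -/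
theorem several {k : ℕ} {n : Fin k → ℕ} [∀ i, NeZero (n i)] (p : Fin k → ℤ) (c : ℚ) (i : Fin k) (hp : p i ≠ 0) :
    volume (Set.Icc 0 1 ∩ {V : ∀ i, Fin (n i) × Fin 3 → ℝ | casson V p = c}) ≤
      ENNReal.ofReal ((2 * C0 + 2) * (n i : ℝ) ^ (-(1 / 10) : ℝ)) := by
  have h := Pool.Agent.V8H81.Cas.comb (α := fun i => Fin (n i) × Fin 3 → ℝ) (fun i => Set.Icc 0 1)
    (fun i => measurableSet_Icc) (fun i => icc_le) (fun i => a2) (fun i => measurable_a2) i _
    (fun c => single (n := n i) c) p hp c
  refine le_trans (measure_mono ?_) h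
  rintro V ⟨h1, h2⟩
  exact ⟨fun j => ⟨h1.1 j, h1.2 j⟩, h2⟩

/-- **Surgeries on independent uniform random polygons.** A uniform random polygon with `n` vertices: the vertices are
independent and uniformly distributed in `[0, 1] ^ 3`, i.e. the `3 n` coordinates are uniformly distributed in
`[0, 1] ^ (3 n)`. We consider `k` independent uniform random polygons `V i` with `n i` vertices.

* (1) Almost all polygons are in general position, and the edges which cross in the projection have different
  heights there. (2) The diagrams of all the polygons in general position are closed oriented diagrams of knots.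
* There is a constant `C` such that for all `k` and `n`: (3) For every integer vector `p`, every `i` with `p i ≠ 0`
  and every number `c` (for instance the Casson invariant of a given homology sphere) the Casson invariant of the
  connected sum of the `S(V i, p i)` is `c` with probability at most `C * (n i) ^ (-1/10)`. (4) If `m ≤ n i` for all
  `i`, then for every finite set `F` of integer vectors the connected sums for the vectors `p` of `F` have pairwise
  different Casson invariants with probability at least `1 - C * |F| ^ 2 * m ^ (-1/10)`. -/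
theorem result :
    (∀ (n : ℕ) [NeZero n], 2 < n → ∀ᵐ V : Fin n × Fin 3 → ℝ, General (shade V) ∧
      ∀ a b, Cross (shade V) a b → hgt (shade V) (height V) a b ≠ hgt (shade V) (height V) b a) ∧
    (∀ (n : ℕ) [NeZero n] (P : Fin n → ℝ × ℝ) (h : General P) (z : Fin n → ℝ),
      (lift P h z).IsClosed ∧ Pool.Agent.TH561.PK.IsKnot (lift P h z)) ∧
    ∃ C : ℝ, ∀ (k : ℕ) (n : Fin k → ℕ) [∀ i, NeZero (n i)],
      (∀ (p : Fin k → ℤ) (c : ℚ) (i : Fin k), p i ≠ 0 →
        volume (Set.Icc 0 1 ∩ {V : ∀ i, Fin (n i) × Fin 3 → ℝ | casson V p = c}) ≤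
          ENNReal.ofReal (C * (n i : ℝ) ^ (-(1 / 10) : ℝ))) ∧
      (∀ (m : ℕ) (F : Finset (Fin k → ℤ)), 0 < m → (∀ i, m ≤ n i) →
        volume (Set.Icc 0 1 ∩ {V : ∀ i, Fin (n i) × Fin 3 → ℝ | ¬ Set.InjOn (casson V) F}) ≤
          ENNReal.ofReal (C * F.card ^ 2 * (m : ℝ) ^ (-(1 / 10) : ℝ))) := by
  classical
  refine ⟨fun n _ hn => ae_general hn, fun n _ P h z => ?_, 2 * C0 + 2, fun k n _ =>
    ⟨fun p c i hp => several p c i hp, fun m F hm hF => ?_⟩⟩
  · rw [lift_eq]
    exact ⟨by convert Pool.Agent.R811.Cross.isClosed _ _, Pool.Agent.R811.Cross.isKnot _ _⟩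
  · have hsub : (Set.Icc 0 1 ∩ {V : ∀ i, Fin (n i) × Fin 3 → ℝ | ¬ Set.InjOn (casson V) F}) ⊆
        ⋃ x ∈ F.offDiag, (Set.Icc 0 1 ∩ {V : ∀ i, Fin (n i) × Fin 3 → ℝ | casson V (x.1 - x.2) = 0}) := by
      rintro V ⟨h1, h2⟩
      have h3 : ¬ Set.InjOn (casson V) F := h2
      unfold Set.InjOn at h3
      push Not at h3
      obtain ⟨p, hp, q, hq, h4, h5⟩ := h3
      refine Set.mem_iUnion₂.2 ⟨(p, q), Finset.mem_offDiag.2 ⟨hp, hq, h5⟩, h1, ?_⟩
      show casson V (p - q) = 0
      have h6 : casson V (p - q) = casson V p - casson V q := by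
        unfold casson
        rw [← Finset.sum_sub_distrib]
        apply Finset.sum_congr rfl
        intro i _
        rw [Pi.sub_apply]
        push_cast
        ring
      rw [h6, h4, sub_self]
    refine (measure_mono hsub).trans ((measure_biUnion_finset_le _ _).trans ?_)
    have hC := C0_pos
    have hB : ∀ x ∈ F.offDiag, volume (Set.Icc 0 1 ∩ {V : ∀ i, Fin (n i) × Fin 3 → ℝ |
        casson V (x.1 - x.2) = 0}) ≤ ENNReal.ofReal ((2 * C0 + 2) * (m : ℝ) ^ (-(1 / 10) : ℝ)) := by
      intro x hx
      rw [Finset.mem_offDiag] at hx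
      obtain ⟨i, hi⟩ : ∃ i, (x.1 - x.2) i ≠ 0 := by
        by_contra hc
        push Not at hc
        exact hx.2.2 (sub_eq_zero.1 (funext hc))
      refine (several (x.1 - x.2) 0 i hi).trans (ENNReal.ofReal_le_ofReal ?_)
      have h1 : (n i : ℝ) ^ (-(1 / 10) : ℝ) ≤ (m : ℝ) ^ (-(1 / 10) : ℝ) :=
        Real.rpow_le_rpow_of_nonpos (by exact_mod_cast hm) (by exact_mod_cast hF i) (by norm_num)
      exact mul_le_mul_of_nonneg_left h1 (by linarith)
    refine (Finset.sum_le_sum hB).trans ?_
    rw [Finset.sum_const, nsmul_eq_mul, ← ENNReal.ofReal_natCast, ← ENNReal.ofReal_mul (Nat.cast_nonneg _)]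
    apply ENNReal.ofReal_le_ofReal
    have h1 : (F.offDiag.card : ℝ) ≤ (F.card : ℝ) ^ 2 := by
      have h2 : F.offDiag.card ≤ F.card * F.card := by
        rw [Finset.offDiag_card]
        exact Nat.sub_le _ _
      have h3 : (F.offDiag.card : ℝ) ≤ ((F.card * F.card : ℕ) : ℝ) := by exact_mod_cast h2
      push_cast at h3
      rw [sq]
      exact h3
    have h2 : 0 ≤ (2 * C0 + 2) * (m : ℝ) ^ (-(1 / 10) : ℝ) := by positivity
    calc (F.offDiag.card : ℝ) * ((2 * C0 + 2) * (m : ℝ) ^ (-(1 / 10) : ℝ))
        ≤ (F.card : ℝ) ^ 2 * ((2 * C0 + 2) * (m : ℝ) ^ (-(1 / 10) : ℝ)) := mul_le_mul_of_nonneg_right h1 h2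
      _ = _ := by ring

end Pool.Agent.Results.MP_27a3bb_gt.RandomSurgeries
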